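import Pool.Agent.W940.LSD.Asm
import Pool.Agent.W940.LSD.Chr
import Pool.Agent.W7.LSD.Tur
import Pool.Agent.W594.LSD.Mer
import Pool.Agent.W481.LSD.Msb
import Pool.Agent.W535.LSD.Det

set_option autoImplicit false

/-! Project LS, part DENS. -/

namespace Pool.Agent.W940.LS

theorem dens : Pool.Agent.W307.LS.DENS :=
  Pool.Agent.W940.LSD.dens Pool.Agent.W7.LSD.tur Pool.Agent.W940.LSD.chr
    Pool.Agent.W594.LSD.mer Pool.Agent.W481.LSD.msb Pool.Agent.W535.LSD.det

end Pool.Agent.W940.LS
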